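import Pool.Agent.X120.HG.Abs

/-!
# Hodge classes on the products `Y^r × X_1^(a_1) × … × X_k^(a_k)` for an arbitrary variety `Y` and fibres `X_i` over `b_i^(-t_i)` of
# hypergeometric families of Calabi-Yau type

Let `β_(i,1), …, β_(i,m_i)`, `1 ≤ i ≤ k`, be rational numbers which are not integers, `θ = z d/dz`, and let `V_i` be the variation of Hodge structure on the
projective line minus three points given by the hypergeometric operator `θ^(2m_i) - z ∏_j (θ + β_(i,j)) (θ + 1 - β_(i,j))`. It has maximally unipotent monodromy at `z = 0`. If the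
`β_(i,j)` are in `(0, 1)` it is irreducible of rank `2m_i`, of weight `2m_i - 1` with all Hodge numbers `h^{p,q} = 1`. For `m_i = 2` these are the `H^3` of the
14 hypergeometric families of Calabi-Yau threefolds, for example of the mirror quintic. The rational structure is given, in the coordinates of the Frobenius basis, by an invertible matrix `C_i` (periods of the
limiting mixed Hodge structure); all invertible complex matrices are allowed here. Let `X_i` be the fibre of a family with `V_i` as primitive cohomology over the rational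
point `z_i = b_i^(-t_i)`, and let `Y` be any smooth projective variety. `V_0` is the total cohomology of `Y` (or the sum of any finite number of cohomology groups of varieties).

We describe the classes on `Y^r × ∏ X_(τ(l))` with values in the interesting part as rational multilinear forms `T` on `V_0^r × V_(τ(1)) × … × V_(τ(m))`
(by Poincaré duality and the Künneth formula; the rest of the cohomology of the `X_i` is generated by algebraic classes for these families and only contributes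
products with algebraic classes). A class is a Hodge class if and only if the form vanishes on
`∏ V_0^{p_l} × ∏ H_(τ(l))^{q_l, *}` unless `∑ p_l + ∑ q_l` is equal to a given number `c` (`c` is half of the total weight), that is, if it is an eigenvector with eigenvalue `c` of the derivation given by the Hodge operators (multiplication by `p`).

Let `σ` be an automorphism of `ℂ`. The conjugate variety `Y^σ` gives another Hodge structure `V_0'`, the `X_i` do not change. The comparison isomorphisms of de Rham and `ℓ`-adic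
cohomology give isomorphisms `g_0^λ : V_0 ⊗ ℂ → V_0' ⊗ ℂ` and `g_i^λ : V_i ⊗ ℂ → V_i ⊗ ℂ`, `λ = dR, ℓ` (we choose embeddings of the fields `ℚ_ℓ` into `ℂ`), which respect the
polarisations up to the factor `χ_λ^(w_i)`, where `χ_λ` is given by the action on the Tate structure.

**Theorem.** Let `b_i ≥ 2` be integers and `n_0` a natural number. There is a constant `K`, which depends only on the `β_(i,j)`, the `b_i` and `n_0`, such that for all `V_0` of dimension `n_0` and all `C_i`, for all but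
`K N^(k-1) log N` of the `N^k` points `(b_1^(-t_1), …, b_k^(-t_k))`, `1 ≤ t_i ≤ N`, for all `r`, `m` and `τ` **at once** (and all rational polarisations `A_i`, or just forms with the first bilinear relation):

1. every Hodge class on `V_0^r × V_(τ(1)) × … × V_(τ(m))` is a rational linear combination of products `v ⊗ A ⊗ … ⊗ A` of a Hodge class `v` on `V_0^r` and of polarisations of the `V_i`;

2. if all Hodge classes on the powers of `Y` are absolute Hodge for `σ` (there is a Hodge class on `Y^σ` with the right components for all comparison isomorphisms), then so are all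
Hodge classes on `V_0^r × V_(τ(1)) × … × V_(τ(m))`.

So the conjecture for `Y^r × X_1^(a_1) × … × X_k^(a_k)`, all `r` and `a_i`, is equivalent to the conjecture for the powers of `Y`. For example it holds if `Y` is an abelian variety (Deligne), in particular if `Y` is a point.
It was not known for a single fibre over `b^(-n)` that these classes are generated in this way.

Proof. By `MP_eeb1a4_ag.RelativeHodgeGenericity`, whose method is explained there, all rational Lie algebras whose complexification contains the Hodge operator of `V_0 ⊕ V_1 ⊕ … ⊕ V_k` contain `0 × ∏ 𝔰𝔭(A_i)` for the points in question. This is applied to the Lie algebra of the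
matrices for which the form `T` is an eigenvector. As `𝔰𝔭(A_i)` is perfect it kills `T`. By the first fundamental theorem for symplectic Lie algebras `T` is a combination of products of a form on `V_0^r` and of the `A_i`. The
forms on `V_0^r` are eigenvectors of the Hodge operator, as the products of the `A_i` are.
-/

set_option autoImplicit false

open PowerSeries

namespace Pool.Agent.Results.MP_4e1cf2_ag.FibresAtPowersTimesVariety

/-- the power series `x + ε` in the variable `ε` -/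
noncomputable def shift (x : ℚ) : PowerSeries ℚ := C x + X

/-- `a_k(ε) = ∏_{l < k} ∏_j (l + ε + β_j) (l + ε + 1 - β_j) / (l + 1 + ε)^2`. The series `∑_k a_k(ε) z^(k + ε)` satisfies
`(θ^n - z ∏_j (θ + β_j) (θ + 1 - β_j)) f = ε^n z^ε`, `n = 2m`, hence its coefficients `f_j` at `ε^j` with `j < n` are
solutions of the homogeneous equation. -/
noncomputable def frob {m : ℕ} (β : Fin m → ℚ) (k : ℕ) : PowerSeries ℚ :=
  ∏ l ∈ Finset.range k, ∏ j, (shift (l + β j) * shift (l + 1 - β j) * ((shift (l + 1))⁻¹) ^ 2)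

/-- The row `((θ^i f_j)(1 / s))_j`, where `f_j(z)` is the coefficient of `ε^j` in the series `∑_k a_k(ε) z^(k + ε)`,
`z^ε = ∑_l (log z)^l ε^l / l!`. -/
noncomputable def per {m : ℕ} (β : Fin m → ℚ) (s i : ℕ) : Fin (2 * m) → ℂ := fun j =>
  ∑ l ∈ Finset.range ((j : ℕ) + 1), ((Real.log (1 / s) ^ l / l.factorial : ℝ) : ℂ) *
    ∑' k : ℕ, ((coeff ((j : ℕ) - l) (shift k ^ i * frob β k) : ℚ) : ℂ) * (1 / (s : ℂ)) ^ k

/-- a rational matrix as a complex matrix -/
def toC {n : ℕ} (M : Matrix (Fin n) (Fin n) ℚ) : Matrix (Fin n) (Fin n) ℂ := M.map fun x : ℚ => (x : ℂ)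

/-- `H p = H^{p, w-p}`, `p ≤ w`, are the parts of a Hodge structure of weight `w` on `ℚ^n` with the first bilinear relation for the nondegenerate
alternating form `A`, for example a Hodge structure which is polarised by `A`. (The sum is direct because of the relation.) -/
structure IsHodge {n : ℕ} (w : ℕ) (A : Matrix (Fin n) (Fin n) ℚ) (H : ℕ → Submodule ℂ (Fin n → ℂ)) : Prop where
  alt : A.transpose = -A
  nondeg : A.det ≠ 0
  span : (⨆ p : {p : ℕ // p ≤ w}, H p) = ⊤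
  conj : ∀ p ≤ w, ∀ v ∈ H p, (fun i => star (v i)) ∈ H (w - p)
  orth : ∀ p ≤ w, ∀ r ≤ w, p + r ≠ w → ∀ v ∈ H p, ∀ u ∈ H r, dotProduct v (Matrix.mulVec (toC A) u) = 0

/-- The Hodge operator `Φ` is the multiplication by `p` on `H^{p, w-p}`. Matrices act on row vectors from the right. -/
def IsHodgeOperator {n : ℕ} (w : ℕ) (H : ℕ → Submodule ℂ (Fin n → ℂ)) (Φ : Matrix (Fin n) (Fin n) ℂ) : Prop :=
  ∀ p ≤ w, ∀ v ∈ H p, Matrix.vecMul v Φ = (p : ℂ) • v

/-- There is a basis of eigenvectors (the rows of `B`) of `Φ₀` with integer eigenvalues. The Hodge operators (multiplication by `p` on the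
parts `H^{p,q}`) of all Hodge structures are of this kind, also those of mixed Hodge structures (`I^{p,q}`). -/
def IsSplitOperator {n : ℕ} (Φ₀ : Matrix (Fin n) (Fin n) ℂ) : Prop :=
  ∃ (B : Matrix (Fin n) (Fin n) ℂ) (p : Fin n → ℤ), IsUnit B.det ∧ ∀ i, Matrix.vecMul (B i) Φ₀ = (p i : ℂ) • B i

section
variable {n₀ k r m : ℕ} {n : Fin k → ℕ}

/-- The coordinates of multilinear forms on `V_0^r × V^m`, `V = V_1 ⊕ … ⊕ V_k`, with values in `K` -/
abbrev Form (n₀ r : ℕ) {k : ℕ} (n : Fin k → ℕ) (m : ℕ) (K : Type) : Type :=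
  (Fin r → Fin n₀) → (Fin m → Σ i, Fin (n i)) → K

/-- a rational form as a complex form -/
def cform (T : Form n₀ r n m ℚ) : Form n₀ r n m ℂ := fun a I => ((T a I : ℚ) : ℂ)

/-- The derivation: the sum of the forms which one gets by applying the operator `(Φ₀, Φ_1, …, Φ_k)` to one of the variables -/
noncomputable def derivation (Φ₀ : Matrix (Fin n₀) (Fin n₀) ℂ) (Φ : ∀ i, Matrix (Fin (n i)) (Fin (n i)) ℂ)
    (T : Form n₀ r n m ℂ) : Form n₀ r n m ℂ := fun a I =>
  (∑ l, ∑ y, Φ₀ (a l) y * T (Function.update a l y) I) +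
    ∑ l, ∑ y, Matrix.blockDiagonal' Φ (I l) y * T a (Function.update I l y)

/-- `T` is a form on `V_0^r × V_(τ(1)) × … × V_(τ(m))` and a Hodge form of type `c`: the Hodge operator acts as multiplication by `c`.
Equivalently it vanishes on eigenvectors of the Hodge operators unless the sum of the eigenvalues is `c`. -/
def IsHodgeForm (Φ₀ : Matrix (Fin n₀) (Fin n₀) ℂ) (Φ : ∀ i, Matrix (Fin (n i)) (Fin (n i)) ℂ) (τ : Fin m → Fin k) (c : ℤ)
    (T : Form n₀ r n m ℚ) : Prop :=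
  (∀ a I, T a I ≠ 0 → ∀ l, (I l).1 = τ l) ∧ derivation Φ₀ Φ (cform T) = (c : ℂ) • cform T

/-- a Hodge form of type `q` on `V_0^r` -/
def IsHodgeForm₀ (Φ₀ : Matrix (Fin n₀) (Fin n₀) ℂ) (q : ℤ) (v : (Fin r → Fin n₀) → ℚ) : Prop :=
  ∀ a, ∑ l, ∑ y, Φ₀ (a l) y * ((v (Function.update a l y) : ℚ) : ℂ) = (q : ℂ) * ((v a : ℚ) : ℂ)

/-- The product `A_(c 1) ⊗ A_(c 2) ⊗ …` of forms `A_i` over a matching `e` of the variables -/
def pairing (A : ∀ i, Matrix (Fin (n i)) (Fin (n i)) ℚ) {s : ℕ} (e : Fin s × Fin 2 ≃ Fin m) (c : Fin s → Fin k) :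
    (Fin m → Σ i, Fin (n i)) → ℚ :=
  fun I => ∏ l, if (I (e (l, 0))).1 = c l then Matrix.blockDiagonal' A (I (e (l, 0))) (I (e (l, 1))) else 0

/-- the products `v ⊗ A ⊗ … ⊗ A` of a Hodge form `v` on `V_0^r` and of the `A_i`, of type `c` (`A_i` is of type `w_i`) -/
def products (Φ₀ : Matrix (Fin n₀) (Fin n₀) ℂ) (w : Fin k → ℕ) (A : ∀ i, Matrix (Fin (n i)) (Fin (n i)) ℚ)
    (c : ℤ) : Set (Form n₀ r n m ℚ) :=
  {S | ∃ (s : ℕ) (e : Fin s × Fin 2 ≃ Fin m) (c' : Fin s → Fin k) (v : (Fin r → Fin n₀) → ℚ),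
    IsHodgeForm₀ Φ₀ (c - ∑ l, (w (c' l) : ℤ)) v ∧ S = fun a I => v a * pairing A e c' I}

/-- `T(v_1, …; u_1, …)` after the change of variables by `g₀`, `g_i` -/
noncomputable def transport (g₀ : Matrix (Fin n₀) (Fin n₀) ℂ) (g : ∀ i, Matrix (Fin (n i)) (Fin (n i)) ℂ)
    (T : Form n₀ r n m ℂ) : Form n₀ r n m ℂ := fun a I =>
  ∑ b : Fin r → Fin n₀, ∑ J : Fin m → Σ i, Fin (n i),
    (∏ l, g₀ (a l) (b l)) * (∏ l, Matrix.blockDiagonal' g (I l) (J l)) * T b J

/-- the same for forms on `V_0^r` -/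
noncomputable def transport₀ (g₀ : Matrix (Fin n₀) (Fin n₀) ℂ) (v : (Fin r → Fin n₀) → ℂ) : (Fin r → Fin n₀) → ℂ := fun a =>
  ∑ b : Fin r → Fin n₀, (∏ l, g₀ (a l) (b l)) * v b

end

section
variable {n₀ k : ℕ} {n : Fin k → ℕ}

/-- All Hodge forms on the `V_0^r × V_(τ(1)) × … × V_(τ(m))` are combinations of products of Hodge forms on the `V_0^r` and of the `A_i`. -/
def AllGenerated (Φ₀ : Matrix (Fin n₀) (Fin n₀) ℂ) (w : Fin k → ℕ) (A : ∀ i, Matrix (Fin (n i)) (Fin (n i)) ℚ)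
    (Φ : ∀ i, Matrix (Fin (n i)) (Fin (n i)) ℂ) : Prop :=
  ∀ (r m : ℕ) (τ : Fin m → Fin k) (c : ℤ) (T : Form n₀ r n m ℚ), IsHodgeForm Φ₀ Φ τ c T →
    T ∈ Submodule.span ℚ (products Φ₀ w A c)

/-- All Hodge forms on the `V_0^r` are absolute Hodge for the comparison isomorphisms `g₀ λ` to the conjugate structure
with the Hodge operator `Φ₀'` (with the same Hodge form `v'` for all `λ`). -/
def AllAbsolute₀ {Λ : Type} (Φ₀ Φ₀' : Matrix (Fin n₀) (Fin n₀) ℂ) (g₀ : Λ → Matrix (Fin n₀) (Fin n₀) ℂ) (χ : Λ → ℂ) : Prop :=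
  ∀ (r : ℕ) (q : ℤ) (v : (Fin r → Fin n₀) → ℚ), IsHodgeForm₀ Φ₀ q v → ∃ v' : (Fin r → Fin n₀) → ℚ,
    IsHodgeForm₀ Φ₀' q v' ∧ ∀ l, transport₀ (g₀ l) (fun a => ((v a : ℚ) : ℂ)) = (χ l) ^ q • fun a => ((v' a : ℚ) : ℂ)

/-- The same for all Hodge forms on the `V_0^r × V_(τ(1)) × … × V_(τ(m))`. -/
def AllAbsolute {Λ : Type} (Φ₀ Φ₀' : Matrix (Fin n₀) (Fin n₀) ℂ) (Φ : ∀ i, Matrix (Fin (n i)) (Fin (n i)) ℂ)
    (g₀ : Λ → Matrix (Fin n₀) (Fin n₀) ℂ) (g : Λ → ∀ i, Matrix (Fin (n i)) (Fin (n i)) ℂ) (χ : Λ → ℂ) : Prop :=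
  ∀ (r m : ℕ) (τ : Fin m → Fin k) (c : ℤ) (T : Form n₀ r n m ℚ), IsHodgeForm Φ₀ Φ τ c T →
    ∃ T' : Form n₀ r n m ℚ, IsHodgeForm Φ₀' Φ τ c T' ∧
      ∀ l, transport (g₀ l) (g l) (cform T) = (χ l) ^ c • cform T'

/-- the conclusions for the Hodge structures `H_i` with the forms `A_i` -/
def Conclusion (Φ₀ : Matrix (Fin n₀) (Fin n₀) ℂ) (w : Fin k → ℕ) (A : ∀ i, Matrix (Fin (n i)) (Fin (n i)) ℚ)
    (H : ∀ i, ℕ → Submodule ℂ (Fin (n i) → ℂ)) : Prop :=
  ∀ Φ : ∀ i, Matrix (Fin (n i)) (Fin (n i)) ℂ, (∀ i, IsHodgeOperator (w i) (H i) (Φ i)) →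
    AllGenerated Φ₀ w A Φ ∧
    ∀ (Λ : Type) (Φ₀' : Matrix (Fin n₀) (Fin n₀) ℂ) (g₀ : Λ → Matrix (Fin n₀) (Fin n₀) ℂ)
      (g : Λ → ∀ i, Matrix (Fin (n i)) (Fin (n i)) ℂ) (χ : Λ → ℂ), (∀ l, χ l ≠ 0) →
      (∀ l i, g l i * toC (A i) * (g l i).transpose = (χ l) ^ w i • toC (A i)) →
      AllAbsolute₀ Φ₀ Φ₀' g₀ χ → AllAbsolute Φ₀ Φ₀' Φ g₀ g χ

theorem der_iff {r m : ℕ} {Φ₀ : Matrix (Fin n₀) (Fin n₀) ℂ} {Φ : ∀ i, Matrix (Fin (n i)) (Fin (n i)) ℂ} {c : ℂ}
    {T : Form n₀ r n m ℂ} : derivation Φ₀ Φ T = c • T ↔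
      ∀ a, Pool.Agent.X120.HG.Dt ((Φ₀, Φ) : Pool.Agent.X120.HG.TM n₀ n ℂ) T a = c • T a := by
  constructor
  · intro h a
    funext I
    rw [Pool.Agent.X120.HG.Dt_apply]
    exact congrFun (congrFun h a) I
  · intro h
    funext a I
    have h1 := congrFun (h a) I
    rw [Pool.Agent.X120.HG.Dt_apply] at h1
    exact h1

theorem der0_iff {r : ℕ} {Φ₀ : Matrix (Fin n₀) (Fin n₀) ℂ} {q : ℤ} {v : (Fin r → Fin n₀) → ℚ} :
    IsHodgeForm₀ Φ₀ q v ↔ Pool.Agent.X120.HG.dr Φ₀ (Pool.Agent.X120.HG.cst v) = (q : ℂ) • Pool.Agent.X120.HG.cst v := by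
  constructor
  · intro h
    funext a
    exact h a
  · intro h a
    exact congrFun h a

theorem conclusion_of {Φ₀ : Matrix (Fin n₀) (Fin n₀) ℂ} {w : Fin k → ℕ} {A : ∀ i, Matrix (Fin (n i)) (Fin (n i)) ℚ}
    {H : ∀ i, ℕ → Submodule ℂ (Fin (n i) → ℂ)} (hH : ∀ i, Pool.Agent.X120.HG.HS (w i) (A i) (H i))
    (h : Pool.Agent.X120.HG.AllGen Φ₀ w A H) : Conclusion Φ₀ w A H := by
  intro Φ hop
  refine ⟨?_, ?_⟩
  · intro r m τ c T hT
    have h1 := h Φ hop r m τ T c (fun a I => hT.1 a I) (der_iff.1 hT.2)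
    refine Submodule.span_mono ?_ h1
    rintro S ⟨v, P, ⟨s, e, c', hc', rfl⟩, hv, rfl⟩
    refine ⟨s, e, c', v, ?_, rfl⟩
    rw [der0_iff, ← Pool.Agent.X120.HG.rh_mulVec]
    have hν : (∑ l, (w (τ l) : ℂ)) / 2 = ((∑ l, (w (c' l) : ℤ) : ℤ) : ℂ) := by
      rw [← Equiv.sum_comp e, Fintype.sum_prod_type]
      have h3 : ∀ l : Fin s, ∑ ε : Fin 2, (w (τ (e (l, ε))) : ℂ) = 2 * (w (c' l) : ℂ) := by
        intro l
        rw [Fin.sum_univ_two, ← (hc' l).1, ← (hc' l).2]
        ring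
      rw [Finset.sum_congr rfl fun l _ => h3 l, ← Finset.mul_sum]
      push_cast
      ring
    rw [hν] at hv
    push_cast at hv ⊢
    exact hv
  · intro Λ Φ₀' g₀ g χ hχ hg h0 r m τ c T hT
    have h1 := h Φ hop r m τ T c (fun a I => hT.1 a I) (der_iff.1 hT.2)
    obtain ⟨T', h2, h3, h4⟩ := Pool.Agent.X120.HG.abs_of (fun i => (hH i).op (hop i)) hχ hg (fun q v hv => by
      obtain ⟨v', hv', hg'⟩ := h0 r q v (der0_iff.2 hv)
      exact ⟨v', der0_iff.1 hv', hg'⟩) h1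
    exact ⟨T', ⟨fun a I => h2 a I, der_iff.2 h3⟩, h4⟩

theorem split_eq {Φ₀ : Matrix (Fin n₀) (Fin n₀) ℂ} (h : IsSplitOperator Φ₀) :
    ∃ (B : Matrix (Fin n₀) (Fin n₀) ℂ) (p : Fin n₀ → ℤ), IsUnit B.det ∧ Φ₀ = Pool.Agent.X120.HG.opB B p := by
  obtain ⟨B, p, hB, h1⟩ := h
  refine ⟨B, p, hB, ?_⟩
  have h2 : B * Φ₀ = Matrix.diagonal (fun i => (p i : ℂ)) * B := by
    ext i j
    rw [Matrix.diagonal_mul]
    exact congrFun (h1 i) j
  have h3 : B⁻¹ * (B * Φ₀) = B⁻¹ * (Matrix.diagonal (fun i => (p i : ℂ)) * B) := by rw [h2]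
  rw [← Matrix.mul_assoc, Matrix.nonsing_inv_mul _ hB, Matrix.one_mul, ← Matrix.mul_assoc] at h3
  exact h3

end

/-- The conclusions for all Hodge structures `H_i` of weight `2 m_i - 1` with a form
`A_i` such that `H_i^{2 m_i - 1, 0}` is spanned by the period vector of the `i`-th family at `1 / s_i`, in the coordinates given by `C_i`. -/
def Good {n₀ k : ℕ} {m : Fin k → ℕ} (Φ₀ : Matrix (Fin n₀) (Fin n₀) ℂ) (β : ∀ i, Fin (m i) → ℚ) (s : Fin k → ℕ)
    (C : ∀ i, Matrix (Fin (2 * m i)) (Fin (2 * m i)) ℂ) : Prop :=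
  ∀ (A : ∀ i, Matrix (Fin (2 * m i)) (Fin (2 * m i)) ℚ) (H : ∀ i, ℕ → Submodule ℂ (Fin (2 * m i) → ℂ)),
    (∀ i, IsHodge (2 * m i - 1) (A i) (H i)) →
    (∀ i, H i (2 * m i - 1) = Submodule.span ℂ {Matrix.vecMul (per (β i) (s i) 0) (C i)}) →
    Conclusion Φ₀ (fun i => 2 * m i - 1) A H

/-- **The theorem.** -/
theorem result (n₀ k : ℕ) (m : Fin k → ℕ) (hm : ∀ i, 1 ≤ m i) (β : ∀ i, Fin (m i) → ℚ)
    (hβ : ∀ i j, ∀ a : ℤ, β i j ≠ a) (b : Fin k → ℕ) (hb : ∀ i, 2 ≤ b i) :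
    ∃ K : ℝ, 0 ≤ K ∧ ∀ Φ₀ : Matrix (Fin n₀) (Fin n₀) ℂ, IsSplitOperator Φ₀ →
      ∀ C : ∀ i, Matrix (Fin (2 * m i)) (Fin (2 * m i)) ℂ, (∀ i, (C i).det ≠ 0) → ∀ N : ℕ, 2 ≤ N →
      (({t : Fin k → ℕ | (∀ i, 1 ≤ t i ∧ t i ≤ N) ∧ ¬ Good Φ₀ β (fun i => b i ^ t i) C}.ncard : ℕ) : ℝ) * N ≤
        K * (N : ℝ) ^ k * Real.log N := by
  classical
  obtain ⟨K, hK, hcount⟩ := Pool.Agent.X120.HG.hyp_hodge n₀ k m hm β hβ b hb
  refine ⟨K, hK, ?_⟩
  intro Φ₀ hΦ₀ C hC N hN
  obtain ⟨B₀, p₀, hB₀, rfl⟩ := split_eq hΦ₀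
  set S := {t : Fin k → ℕ | (∀ i, 1 ≤ t i ∧ t i ≤ N) ∧
    ¬ Good (Pool.Agent.X120.HG.opB B₀ p₀) β (fun i => b i ^ t i) C} with hS
  have hfin : S.Finite := by
    refine (Set.finite_Iic (fun _ : Fin k => N)).subset ?_
    intro t ht i
    exact (ht.1 i).2
  rw [Set.ncard_eq_toFinset_card S hfin]
  refine hcount B₀ hB₀ p₀ C hC N hN hfin.toFinset fun t ht => ?_
  have ht' : t ∈ S := hfin.mem_toFinset.1 ht
  refine ⟨ht'.1, fun hgood => ht'.2 ?_⟩
  intro A H hH hHω
  have hHS : ∀ i, Pool.Agent.X120.HG.HS (2 * m i - 1) (A i) (H i) := fun i =>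
    ⟨(hH i).alt, (hH i).nondeg, (hH i).span, (hH i).conj, (hH i).orth⟩
  exact conclusion_of hHS (hgood A H hHS hHω)

end Pool.Agent.Results.MP_4e1cf2_ag.FibresAtPowersTimesVariety
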