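import Pool.Agent.X311.Ip5

/-!
# Hodge classes and absolute Hodge classes on products of varieties with independent periods

The question is whether all Hodge classes on all smooth projective varieties are absolute Hodge classes.
It is known for abelian varieties (Deligne) and for the varieties whose motives come from abelian
varieties, but a Hodge class on a product `X × Y` need not come from Hodge classes on `X` and on `Y`, so
that it is open for products `X × Y` of such a variety and a variety `Y`, even if it is known for `Y`.

The theorem. Let `X k` (`k ∈ κ`, `κ` finite) be **arbitrary** smooth projective varieties. Suppose that for all
`k` except for one, `i₀`, the Hodge group of `X k` is simple over `ℚ`. No assumption is made on the Hodge group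
of `Y = X i₀`. Suppose that

* for `i ≠ i₀`, the periods of `X i` are not all algebraic over the periods of `Y` (the Hodge
  filtration of the cohomology of `X i` is not defined over the algebraic closure of a field of
  definition of the Hodge filtration of the cohomology of `Y`, in the bases given by rational
  cohomology), or the Hodge group of `Y` has smaller dimension than the one of `X i`, or it is
  commutative (`Y` is of CM type), and
* for `i ≠ j` different from `i₀` the same condition holds for `X i` and `X j` in one of the two orders.

Then for all exponents `n k` the Hodge classes on the product of all `X k ^ n k` are exactly the sums of the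
exterior products of Hodge classes on the powers `X k ^ n k`. So **all Hodge classes on the product of the
`X k ^ n k` are absolute Hodge classes if and only if this is true for each of the powers `X k ^ n k`**; and the
same is true for motivated classes and for algebraic classes (that is, for the Hodge conjecture).

For example, let `A` be an abelian variety, a K3 surface or another variety whose Hodge classes on all
powers are known to be absolute, with simple Hodge group, and let `Y` be any variety over which the
periods of `A` are not all algebraic: a single period of `A` which is transcendental over the
periods of `Y` is enough. Then all Hodge classes on `A ^ n × Y` are absolute if this is so for `Y`.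

The proof: let `F` be a Hodge class on the product. The rational Lie algebra `L` of the elements of the
product of the Hodge Lie algebras which kill `F` contains the Hodge operator `z` after extension of the
scalars, so it also contains the derivatives `δ z` for all derivations `δ` of the complex numbers.
Let `δ` be a derivation over the field of the periods of `X j` which moves the Hodge filtration of `X i`.
It preserves the Hodge filtration of `X j`, so that the derivative of the Hodge operator of `X j` has only
parts of types `(k, -k)` with `k > 0`, which are killed by a polynomial in the commutator with `z` that
does not kill the derivative of the Hodge operator of `X i`. This gives an element of `L` with component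
zero in `X j` and nonzero component in `X i`, and the argument of Goursat, Kolchin and Ribet for simple Lie
algebras shows that `L` contains the Hodge Lie algebra of each `X i`, `i ≠ i₀`. (`X311/Ip1.lean` to
`X311/Ip5.lean`.)
-/

set_option autoImplicit false

namespace Pool.Agent.Results.MP_4e1cf2_ag.IndependentPeriods

open Pool.Agent.TH131.GHC Pool.Agent.X311.Ip

/-- **Hodge classes and absolute Hodge classes on products of varieties with independent periods.** -/
theorem result {κ : Type} [Fintype κ] [DecidableEq κ] {x : κ → ℕ} (X : ∀ k, Coh (x k)) (i₀ : κ)
    (hsimple : ∀ i, i ≠ i₀ → HasSimpleHodgeGroup (X i))
    (h0 : ∀ i, i ≠ i₀ → IndependentOf (X i) (X i₀))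
    (hpairs : ∀ i j, i ≠ i₀ → j ≠ i₀ → i ≠ j → IndependentOf (X i) (X j) ∨ IndependentOf (X j) (X i))
    (n : κ → ℕ) :
    (∀ F, IsHodgeOnProductOfPowers X F ↔ F ∈ productsOfHodgeClasses X n) ∧
    ∀ (C : Submodule ℚ ((∀ k, Fin (n k) → Fin (x k)) → ℚ))
      (P D : ∀ k, Submodule ℚ ((Fin (n k) → Fin (x k)) → ℚ)), IsSystem X n C P D →
      ((∀ F, IsHodgeOnProductOfPowers X F → F ∈ C) ↔
        ∀ k, ∀ f, IsHodgeOnPower (X k) f → f ∈ P k) :=
  ⟨fun F => ⟨fun hF => independent i₀ hsimple h0 hpairs F hF, isHodge_of_mem⟩,
    fun _ _ _ hC => all_iff hC fun F hF => independent i₀ hsimple h0 hpairs F hF⟩

end Pool.Agent.Results.MP_4e1cf2_ag.IndependentPeriods
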