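import Pool.Agent.X311.Ah3

/-!
# Hodge classes and absolute Hodge classes on products of arbitrary varieties with abelian varieties
# with many periods

The question is whether all Hodge classes on smooth projective varieties are absolute Hodge classes.
This is known for abelian varieties (Deligne), and open for general varieties `Y` and for the products
`A × Y` with abelian varieties. Let `A` be an abelian variety of dimension `g` with period matrix `Z`,
and suppose that `D` entries of `Z` are algebraically independent over a field `K` of complex numbers.
Let `Y` be **any** smooth projective variety of CM type or whose periods are in `K` (the Hodge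
filtration of its cohomology is defined over `K`).

The theorem. (1) If `D > g (g - 1) / 2`, or if `A` is simple and `D > g ^ 2 / 4`, and if all Hodge classes
on `Y` are absolute Hodge classes, then
**all Hodge classes on `A ^ n × Y` are absolute Hodge classes, for all `n`**, and so are those on all
varieties `X` which are dominated by some `A ^ n × Y`. (2) For all `D` the abelian variety `A` is isogenous
to a product `A₁ × A₂`, where the dimension `r` of `A₂` is at most `ρ` if `D > g ^ 2 / 4` and
`4 D > (ρ + 1) ^ 2 + 2 (g - ρ - 1) (g - ρ)`, such that (1) holds for `A₁ ^ n × Y` for all `n` and all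
varieties `Y` of CM type or with periods in the field generated by `K` and the periods of `A₂`, for
example for `Y = A₂ ^ n × Y₀` where the periods of `Y₀` are in `K`: the statement of the question
for `A ^ n × Y₀` is equivalent to the statement for `A₂ ^ n × Y₀`.

The theorem is about each system of classes (`IsClassSystem`) on `A ^ n × Y` and `Y`: spaces of Hodge
classes such that the exterior products of polynomials in divisor classes on `A ^ n` and classes of the
system on `Y` are in the system, and the direct images on `Y` of the intersections of classes in the
system with polynomials in divisor classes on `A ^ n` too. The absolute Hodge classes (with or without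
the condition in etale cohomology), the motivated classes and the algebraic classes have these
properties, since divisor classes are algebraic by the theorem of Lefschetz.

The proof: by the analysis of the derivatives of the period matrix with respect to the derivations of
the complex numbers over `K` each Hodge class on `A ^ n × Y` is a sum of products of polynomials in
divisor classes and Hodge classes on `Y` (`X311/Periods2.lean`, starting library `TH504.CB`).
-/

set_option autoImplicit false

namespace Pool.Agent.Results.MP_4e1cf2_ag.ManyPeriods

open Pool.Agent.TH131.GHC Pool.Agent.TH504.CB Pool.Agent.X311 Pool.Agent.X311.Ah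
  Pool.Agent.W437.HC

/-- **Hodge classes and absolute Hodge classes on products of any variety with abelian varieties with
many algebraically independent periods.** -/
theorem result {g : ℕ} (Z : Matrix (Fin g) (Fin g) ℂ) (hZ : IsPeriodMatrix Z) (K : Subfield ℂ)
    {D : ℕ} (p : Fin D → Fin g × Fin g)
    (hp : AlgebraicIndependent K fun s => Z (p s).1 (p s).2) :
    ((g * (g - 1) < 2 * D ∨ (g ^ 2 < 4 * D ∧ ∀ B : Submodule ℚ (Fin g ⊕ Fin g → ℚ),
        IsAbelianSubvariety Z B → B = ⊥ ∨ B = ⊤)) →
      ∀ (v : ℕ) (V : Coh v), IsOfCMType V ∨ HasFiltrationOver K V →
        ∀ n, AllHodgeFromY (perPow Z n) V) ∧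
    ∃ (b r : ℕ) (Z₁ : Matrix (Fin b) (Fin b) ℂ) (Z₂ : Matrix (Fin r) (Fin r) ℂ),
      b + r = g ∧ SmallQuotient g D r ∧
      IsPeriodMatrix Z₁ ∧ IsPeriodMatrix Z₂ ∧ IsIsogenousToProduct Z Z₁ Z₂ ∧
      ∀ (v : ℕ) (V : Coh v), IsOfCMType V ∨ HasFiltrationOver (periodField K Z₂) V →
        ∀ n, AllHodgeFromY (perPow Z₁ n) V := by
  obtain ⟨B, b, r, Z₁, Z₂, h1, h2, h3, h4, h5, h6, h7, h8, h9, h10⟩ :=
    many_periods2 Z hZ.1 hZ.2 K p hp
  refine ⟨fun hD v V hV n => ?_, b, r, Z₁, Z₂, ?_, h3, h6, h7, h8, fun v V hV n => ?_⟩
  · have hr : r = 0 := by
      rcases hD with hD | ⟨hD, hs⟩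
      · exact eq_zero_of_small h3 hD
      · have hg : 0 < g := by
          rcases Nat.eq_zero_or_pos g with h | h
          · subst h
            obtain ⟨φ, -, -⟩ := h8
            have h11 : D = 0 := by
              by_contra hne
              exact Fin.elim0 (p ⟨0, Nat.pos_of_ne_zero hne⟩).1
            rw [h11] at hD
            exact absurd hD (by norm_num)
          · exact h
        have hr' : r ≤ g - 1 := by
          refine h3 (g - 1) hD ?_
          have h11 : g - (g - 1) - 1 = 0 := by omega
          rw [h11, Nat.sub_add_cancel hg]
          simpa using hD
        rcases hs B h1 with h | h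
        · rw [h, finrank_bot] at h2
          omega
        · rw [h, finrank_top, Module.finrank_fintype_fun_eq_card] at h2
          simp only [Fintype.card_sum, Fintype.card_fin] at h2
          omega
    exact (all_of_times hZ (h10 hr 1 ptV (Or.inl ptV_isOfCMType) n) (h10 hr v V hV n)).2.2
  · obtain ⟨φ, -, -⟩ := h8
    have h11 := φ.finrank_eq
    rw [Module.finrank_prod, Module.finrank_fintype_fun_eq_card, Module.finrank_fintype_fun_eq_card,
      Module.finrank_fintype_fun_eq_card] at h11
    simp only [Fintype.card_sum, Fintype.card_fin] at h11
    omega
  · exact (all_of_times h6 (h9 1 ptV (Or.inl ptV_isOfCMType) n) (h9 v V hV n)).2.2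

end Pool.Agent.Results.MP_4e1cf2_ag.ManyPeriods
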