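import Pool.Agent.X312.RL.Pred
import Pool.Agent.Y121.AHS.Law

/-!
# A gap law for Hodge classes that are not absolutely Hodge on `Y × X ^ n`, `Y` fixed

Let `T` be a Hodge theory on a class of smooth projective varieties (in the intended use the
varieties are all smooth projective complex varieties and `T` is `X ↦ H(X, ℚ)`), and `D` a family of
conjugate theories `T' i` with comparison isomorphisms `a` with coefficients `L i a` (the theories
`X ↦ H(X^σ, ℚ)` for the automorphisms `σ` of `ℂ`, with the comparison isomorphisms given by de Rham
cohomology and by `ℓ`-adic cohomology for all primes `ℓ`).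

Let `X` and `Y` be **any two** varieties of the class, and let `b` be the sum of the Betti numbers of
`X`. For a variety `Z` let `Hdg(Z)` and `AH(Z)` be the spaces of the Hodge classes and of the absolutely
Hodge classes of all degrees. Then for all `m ≥ 1`: **every Hodge class on `Y × X ^ m` is absolutely
Hodge, or**

`dim Hdg(Y × X ^ n) - dim AH(Y × X ^ n) ≥ (1 - 4 (m + 3) b ^ (m + 5) log (n + 1) / n) dim AH(X ^ n)`
**for all** `n ≥ 1`.

So, `Y` being fixed, one Hodge class which is not absolutely Hodge on some `Y × X ^ m` gives at least
`(1 - o(1)) dim AH(X ^ n)` independent ones on `Y × X ^ n` for all large `n`, with an explicit rate; and all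
Hodge classes on `Y × X ^ m` are absolutely Hodge if the opposite inequality is true for one `n`.
The index law for the powers of one variety (the
starting result `HodgeIndex`) gives no information on the family `Y × X ^ n`, because `Y` occurs only
with exponent one: all Hodge classes on all powers of `X` may be absolutely Hodge and those on
`Y × X` not.

The proof. Identify the classes on `Y × Z` with the homomorphisms `H(Y) → H(Z)`. The absolutely Hodge
classes `N'(Z)` and the Hodge classes `N(Z)` form two families of subspaces which are stable under
absolutely Hodge correspondences `Z → Z'`. If they differ for `Z = X ^ m`, one takes an idempotent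
correspondence `g` on `P = X ^ m` of minimal rank which does not vanish on `N(P) / N'(P)` and an element
`z` of `g N(P)` which is not in `N'(P)`. A correspondence `x` with `x z ∈ N'(P)` has a nilpotent compression
`g x g`, so the trace of `g x` vanishes; therefore `dim N(Z) / N'(Z)` is at least the rank of the trace form
`(u, v) ↦ tr (g v u)` for all `Z`, and for `Z = X ^ n` this rank is compared with `dim AH(X ^ n)` by the
log-convexity of the sequence `dim AH(X ^ (2 l + 2))` and by the symmetric group.
-/

set_option autoImplicit false

open CategoryTheory AlgebraicGeometry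

universe u

namespace Pool.Agent.Results.MP_4e1cf2_ag.RelativeGapLaw

open Pool.Agent.H914 Pool.Agent.H914.VarClass Pool.Agent.H914.VarClass.Obj
  Pool.Agent.H914.WeilCohomology
open Pool.Agent.Y121 Pool.Agent.Y121.AHS Pool.Agent.Y121.AHS.Full
open Pool.Agent.Y133.Half (pw)

variable {k : Type u} [Field k] {𝒱 : VarClass k} {ops : CycleOps 𝒱}

/-- The sum of the Betti numbers of `X`. -/
noncomputable def totalBetti (T : HodgeTheory ops) (X : 𝒱.Obj) : ℕ :=
  Module.finrank T.W.K (T.W.H X)

/-- **The gap law for Hodge classes and absolutely Hodge classes.** Here `pw X m` is the product of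
`m + 1` copies of `X`. -/
theorem result (T : HodgeTheory ops) (D : Full.Conjugates T) (X Y : 𝒱.Obj) (m : ℕ) :
    (∀ j c, IsHodge T (Y.prod (pw X m)) j c → Full.IsAbsHodge D (Y.prod (pw X m)) j c) ∨
    ∀ n : ℕ, (Full.absDim D (Y.prod (pw X n)) : ℝ) +
      (1 - 4 * (m + 4) * (totalBetti T X : ℝ) ^ (m + 6) * Real.log (n + 2) / (n + 1)) *
        Full.absDim D (pw X n) ≤ hodgeDim T (Y.prod (pw X n)) := by
  have h4 : ∀ n : ℕ, Pool.Agent.X312.RL.cst (Module.finrank (toH T).W.K ((toH T).W.H X)) (m + 1) 2 n =
      4 * (m + 4) * (totalBetti T X : ℝ) ^ (m + 6) * Real.log (n + 2) / (n + 1) := by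
    intro n
    change Pool.Agent.X312.RL.cst (totalBetti T X) (m + 1) 2 n = _
    unfold Pool.Agent.X312.RL.cst
    push_cast
    ring
  rcases Pool.Agent.X312.RL.pred_pair_rel (AH.absPred (toD D)) (AH.hodgePred (toH T))
    (fun h => h.1) (fun Z => AH.abs_nondeg (toD D) Z) X Y m with h | h
  · left
    intro j c hc
    exact isAbsHodge_iff.1 (h j c hc)
  · right
    intro n
    have h3 := h n
    rw [h4] at h3
    have e1 := dimBy_abs (D := D) (Y.prod (pw X n))
    have e2 := dimBy_abs (D := D) (pw X n)
    rw [← e1, ← e2]
    exact h3

end Pool.Agent.Results.MP_4e1cf2_ag.RelativeGapLaw
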